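import Pool.Agent.Helper28H.FF.Main

/-!
# Almost all hyperelliptic curves over `k(t)` with squarefree discriminant, up to a twist of small degree

Let `g ≥ 1`, let `k` be a finite field of characteristic larger than `2 g + 1` and `K = k(t)`. We consider
the curves `y ^ 2 = f(x)`, `f` monic of degree `2 g + 1` over `k[t]` without term of degree `2 g`,
`deg f_j ≤ 2 N (2 g + 1 - j)`, for which

* the discriminant of `f` is squarefree,
* the reduction at infinity `∑ f_j* x ^ j`, `f_j*` the coefficient of `t ^ (2 N (2 g + 1 - j))` in `f_j`, is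
  irreducible over `k`,
* `f` is irreducible modulo the primes in a given finite set `T`.

This family is a positive proportion of all curves of genus `g` over `K` with a rational Weierstrass point
(for `g = 1` of all elliptic curves), ordered by height.

Theorem: there is a constant `C` such that for all `D ≥ 1`, for all but at most the proportion
`C D ^ (-1 / (2000 g))` of the curves of the family of height `2 N`, as soon as `N` is large, there is a monic
squarefree `d ∈ k[t]` of degree at most `D`, prime to `T`, whose prime divisors `Q` satisfy `Q ∣ f(0)` and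
`f(x) / x` irreducible modulo `Q`, such that the quadratic twist by `d` satisfies the following:

For ALL finite Galois extensions `M` of `K` of 2-power degree and ALL `δ ∈ k[t]`, `δ ≠ 0`, such that the
primes dividing `d` split completely in `M` and `f` is irreducible modulo all the primes which are ramified
in `M` or divide `δ`, the Jacobian `J` of the twist of the curve by `d δ` is uniquely 2-divisible over `M`
(so `J(M)` is finite, of odd order), and `Ш(J/M)[2^∞] = 0`.

In particular (`M = K`, `δ = 1`) this holds for the twist by `d` over `K` itself. By the theorem of Artin,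
Tate and Milne (`g = 1`; Schneider, Kato and Trihan for all `g`), in which it is enough to know that one
primary part of the Tate-Shafarevich group is finite, the Tate-Shafarevich group is finite and the
conjecture of Birch and Swinnerton-Dyer holds, rank part (both sides are `0`) and formula, for all these `J`
over all these `M`. So up to twists of bounded degree the conjecture holds for a proportion of the family
which tends to `1`.

Proof. The theorem on the positive proportion (library, projects PJ, JM, TW) has a deterministic part: if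
`S` is a set of primes `Q` with `Q ∣ f(0)` and `f / x` irreducible modulo `Q`, and `f` is not bad for `S`,
then there is a suitable `d = ∏_{Q ∈ J} Q`, `J ⊆ S` (here it is extended to the twists by `δ`, and only the
primes in `J` have to split). The number of the `f` which are bad for `S` and for given residues modulo
the `Q ∈ S` is `O(2^{-|S|} ∏_{Q ∈ S} |Q|^{-2 g} q ^ (2 N (2 g ^ 2 + 3 g)))` with a constant which does not
depend on `S`. We take for `S` the set `S(f)` of ALL the primes of this type of degree at most `√D`. If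
`ρ_Q`, about `1 / (2 g |Q|)`, is the probability of the type at `Q`, the sum of the bound over all sets
`S` and all residues is `O(∏ (1 + ρ_Q / 2))`, but an `f` which is bad for `S(f)` is counted `2^{|S(f)|}`
times, and `|S(f)|` is usually about `∑ ρ_Q`, which tends to infinity like `log D / (4 g)`.
-/

set_option autoImplicit false
set_option linter.all false

namespace Pool.Agent.Results.MP_ff7320_nt.AlmostAllUpToSmallTwist

open Polynomial Filter IsDedekindDomain
open Pool.Agent.N874.Jac (UniquelyTwoDivisible ShaTwoTrivial)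
open scoped Classical

/-- `y ^ 2 = f(x)` is a minimal equation of a curve of genus `g` with a rational Weierstrass point
over `K = k(t)`, of height at most `N`. -/
structure IsCurve {k : Type} [Field k] (K : Type) [Field K] [Algebra k[X] K] (g N : ℕ)
    (f : k[X][X]) : Prop where
  monic : f.Monic
  degree : f.natDegree = 2 * g + 1
  trace : f.coeff (2 * g) = 0
  height : ∀ j ≤ 2 * g, (f.coeff j).natDegree ≤ N * (2 * g + 1 - j)
  smooth : (f.map (algebraMap k[X] K)).Separable
  minimal : ∀ P : k[X], Irreducible P →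
    ¬ ∀ j < 2 * g + 1, P ^ (2 * (2 * g + 1 - j)) ∣ f.coeff j

/-- The curves of genus `g` over `K = k(t)` of height at most `N`. -/
def Curves (k : Type) [Field k] (K : Type) [Field K] [Algebra k[X] K] (g N : ℕ) : Set k[X][X] :=
  {f | IsCurve K g N f}

/-- `f` is irreducible modulo `P`. -/
def IrreducibleMod {k : Type} [Field k] (f : k[X][X]) (P : k[X]) : Prop :=
  Irreducible (f.map (Ideal.Quotient.mk (Ideal.span {P})))

/-- The family: height `2 N`, irreducible reduction at infinity, squarefree discriminant, irreducible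
modulo the primes in `T`. -/
structure InFamily {k : Type} [Field k] (T : Finset k[X]) (g N : ℕ) (f : k[X][X]) : Prop where
  monic : f.Monic
  degree : f.natDegree = 2 * g + 1
  trace : f.coeff (2 * g) = 0
  height : ∀ j ≤ 2 * g, (f.coeff j).natDegree ≤ 2 * N * (2 * g + 1 - j)
  infinity : Irreducible (∑ j ∈ Finset.range (2 * g + 2),
    C ((f.coeff j).coeff (2 * N * (2 * g + 1 - j))) * X ^ j : k[X])
  discriminant : Squarefree (f.resultant (derivative f) (2 * g + 1) (2 * g))
  irreducible : ∀ P ∈ T, IrreducibleMod f P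

/-- The curves of the family of height `2 N`. -/
def Family {k : Type} [Field k] (T : Finset k[X]) (g N : ℕ) : Set k[X][X] := {f | InFamily T g N f}

/-- Multiplication by two is bijective on `J(M)`, `J` the Jacobian of `y ^ 2 = F(x)`, and every class of
2-power order in `H ^ 1 (M, J)` which is zero over the completions of `M` at all maximal ideals of `R` is
zero. -/
def NoTwoPart (R : Type) {M : Type} [Field M] [CommRing R] [IsDedekindDomain R] [Algebra R M]
    [IsFractionRing R M] (F : M[X]) : Prop :=
  UniquelyTwoDivisible F ∧ ShaTwoTrivial F R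

/-- `P` is unramified in the extension `R` of `k[t]`. -/
def Unramified {k : Type} [Field k] (R : Type) [CommRing R] [Algebra k[X] R] (P : k[X]) : Prop :=
  ∀ w : HeightOneSpectrum R, algebraMap k[X] R P ∈ w.asIdeal → algebraMap k[X] R P ∉ w.asIdeal ^ 2

/-- `Q` splits completely in the extension `R` of `k[t]`: it is unramified, and every element of `R` is
congruent to a polynomial modulo every prime over `Q`. -/
def SplitsCompletely {k : Type} [Field k] (R : Type) [CommRing R] [Algebra k[X] R] (Q : k[X]) :
    Prop :=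
  Unramified R Q ∧ ∀ w : HeightOneSpectrum R, algebraMap k[X] R Q ∈ w.asIdeal →
    ∀ y : R, ∃ c : k[X], y - algebraMap k[X] R c ∈ w.asIdeal

/-- The quadratic twist of `y ^ 2 = f(x)` by `d`. -/
noncomputable def twist {k : Type} [Field k] (d : k[X]) (f : k[X][X]) : k[X][X] := f.scaleRoots d

/-- For all finite Galois extensions `M` of `K` of 2-power degree and all `δ ≠ 0` such that the primes
dividing `d` split completely in `M` and `f` is irreducible modulo all the primes which are ramified in `M`
or divide `δ`, the Jacobian of the twist by `d δ` has no 2-part over `M`. Here `R` is the integral closure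
of `k[t]` in `M`. -/
def NoTwoPartInAllTwists {k : Type} [Field k] (K : Type) [Field K] [Algebra k[X] K]
    (d : k[X]) (f : k[X][X]) : Prop :=
  ∀ (M : Type) [Field M] [Algebra K M] [Algebra k[X] M] [IsScalarTower k[X] K M]
    [FiniteDimensional K M] [IsGalois K M] (R : Type) [CommRing R] [IsDedekindDomain R]
    [Algebra R M] [IsFractionRing R M] [Algebra k[X] R] [IsScalarTower k[X] R M]
    [IsIntegralClosure R k[X] M] (n : ℕ) (δ : k[X]), Module.finrank K M = 2 ^ n → δ ≠ 0 →
    (∀ Q : k[X], Irreducible Q → Q ∣ d → SplitsCompletely R Q) →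
    (∀ P : k[X], Irreducible P → (Unramified R P ∧ ¬ P ∣ δ) ∨ IrreducibleMod f P) →
    Irreducible ((twist (d * δ) f).map (algebraMap k[X] M)) ∧
      NoTwoPart R ((twist (d * δ) f).map (algebraMap k[X] M))

/-- There is a monic squarefree `d` of degree at most `D`, prime to the elements of `T`, whose prime
divisors `Q` satisfy `Q ∣ f(0)` and `f(x) / x` irreducible modulo `Q`, such that the Jacobian of the twist
by `d` has no 2-part over `K`, and also the twists of this Jacobian by all admissible `δ` have no 2-part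
over all admissible `M`. -/
def HasSmallTwist {k : Type} [Field k] (K : Type) [Field K] [Algebra k[X] K]
    [IsFractionRing k[X] K] (T : Finset k[X]) (D : ℕ) (f : k[X][X]) : Prop :=
  ∃ d : k[X], d.Monic ∧ Squarefree d ∧ d.natDegree ≤ D ∧ (∀ P ∈ T, ¬ P ∣ d) ∧
    (∀ Q : k[X], Irreducible Q → Q ∣ d → Q ∣ f.coeff 0 ∧ IrreducibleMod f.divX Q) ∧
    Irreducible ((twist d f).map (algebraMap k[X] K)) ∧
    NoTwoPart k[X] ((twist d f).map (algebraMap k[X] K)) ∧ NoTwoPartInAllTwists K d f

section

variable {k : Type} [Field k]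

theorem irr_ideal {f : k[X][X]} {I I' : Ideal k[X]} (h : I = I')
    (h1 : Irreducible (f.map (Ideal.Quotient.mk I'))) :
    Irreducible (f.map (Ideal.Quotient.mk I)) := by
  subst h
  exact h1

/-- The prime divisors of a product of monic primes. -/
theorem mem_of_dvd {J : Finset k[X]} (hJ : ∀ Q ∈ J, Q.Monic ∧ Irreducible Q) {P : k[X]}
    (hP : Irreducible P) (h : P ∣ ∏ Q ∈ J, Q) : ∃ Q ∈ J, Associated P Q := by
  obtain ⟨Q, hQ, hd⟩ := hP.prime.exists_mem_finset_dvd h
  exact ⟨Q, hQ, hP.associated_of_dvd (hJ Q hQ).2 hd⟩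

/-- A prime of `k[t]` is unramified over `k[t]` and splits completely. -/
theorem splits_self (P : k[X]) (hP : Irreducible P) : SplitsCompletely k[X] P := by
  refine ⟨fun w hw h2 => ?_, fun w _ y => ⟨y, ?_⟩⟩
  · have hmax : (Ideal.span {P}).IsMaximal := PrincipalIdealRing.isMaximal_of_irreducible hP
    have e : w.asIdeal = Ideal.span {P} := by
      refine (hmax.eq_of_le w.isPrime.ne_top ?_).symm
      rw [Ideal.span_le, Set.singleton_subset_iff]
      exact hw
    rw [e, Ideal.span_singleton_pow, Ideal.mem_span_singleton] at h2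
    have h3 : P ^ 2 ∣ P := h2
    have h4 : P * P ∣ P * 1 := by rwa [mul_one, ← pow_two]
    exact hP.not_isUnit (isUnit_of_dvd_one ((mul_dvd_mul_iff_left hP.ne_zero).1 h4))
  · simp

end

theorem small_twist {k : Type} [Field k] [Finite k] (K : Type) [Field K] [Algebra k[X] K]
    [IsFractionRing k[X] K] {T : Finset k[X]} (hT : ∀ P ∈ T, P.Monic ∧ Irreducible P) {g N D : ℕ}
    (hg : 1 ≤ g) (hp : ((2 * g + 1).factorial : k) ≠ 0) {f : k[X][X]}
    (hf : Pool.Agent.Helper28H.FF.InF T g N f) (h : Pool.Agent.Helper28H.FF.Small K T D f) :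
    HasSmallTwist K T D f := by
  have h2 : (2 : k) ≠ 0 := by
    have := Pool.Agent.N738.PJ.fac_ne hp (m := 2) (by norm_num) (by omega)
    exact_mod_cast this
  obtain ⟨J, hJ, hD, hU⟩ := h
  have hJ' : ∀ Q ∈ J, Q.Monic ∧ Irreducible Q := fun Q hQ => ⟨(hJ Q hQ).1, (hJ Q hQ).2.1⟩
  have hm := hf.ht.mon
  have hd := hf.ht.deg
  obtain ⟨d, hdd⟩ : ∃ d : k[X], d = ∏ Q ∈ J, Q := ⟨_, rfl⟩
  have hd0 : d ≠ 0 := by
    rw [hdd, Finset.prod_ne_zero_iff]
    exact fun Q hQ => (hJ Q hQ).2.1.ne_zero
  have hI := fun D hD => Pool.Agent.N874.JM.parts.irk g k K f N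
    (Pool.Agent.Helper28H.FF.rInf g N f) D hf.ht hf.goodR
    (hf.fam hg (S := ∅) (fun Q hQ => absurd hQ (Finset.notMem_empty _))).inf hD
  have hall : NoTwoPartInAllTwists K d f := by
    intro M _ _ _ _ _ _ R _ _ _ _ _ _ _ n δ hn hδ hQ hP
    have hdδ : d * δ ≠ 0 := mul_ne_zero hd0 hδ
    have hsel : Pool.Agent.N874.JM.SelF R ((f.scaleRoots (d * δ)).map (algebraMap k[X] M)) := by
      rw [hdd]
      refine hU M R n δ hn hδ ⟨fun Q hQJ w hw => ?_, fun P hPm hPi h3 => ?_⟩
      · have hsp := hQ Q (hJ Q hQJ).2.1 (by rw [hdd]; exact Finset.dvd_prod_of_mem (fun Q => Q) hQJ)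
        refine ⟨(Pool.Agent.N874.TW.val_iff Q w hw).2 (hsp.1 w hw), fun y => ?_⟩
        obtain ⟨y, rfl⟩ := Ideal.Quotient.mk_surjective y
        obtain ⟨b, hb⟩ := hsp.2 w hw y
        exact ⟨b, (Ideal.Quotient.eq.2 hb).symm⟩
      · rcases hP P hPi with h4 | h4
        · exfalso
          rcases h3 with ⟨w, hw, hne⟩ | h3
          · exact hne ((Pool.Agent.N874.TW.val_iff P w hw).2 (h4.1 w hw))
          · exact h4.2 h3
        · exact h4
    have hm' : (f.scaleRoots (d * δ)).Monic := (monic_scaleRoots_iff _).2 hm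
    have ho' : Odd (f.scaleRoots (d * δ)).natDegree := by
      rw [natDegree_scaleRoots, hd]
      exact odd_two_mul_add_one g
    have hirr := (hI (d * δ) hdδ).2.1
    have hsep := ((hI (d * δ) hdδ).2.2 hf.sq.ne_zero).2
    obtain ⟨h4, h5⟩ := Pool.Agent.N874.JM.genuine K M R hn h2 hm' ho' hsep hirr hsel
    refine ⟨?_, Pool.Agent.N874.Jac.div_of _ h4, Pool.Agent.N874.Jac.sha_of _ R h5⟩
    have h6 := Pool.Agent.N874.JM.irr_up hn hirr (hm'.map _) (by rwa [hm'.natDegree_map])
    rwa [Polynomial.map_map, ← IsScalarTower.algebraMap_eq k[X] K M] at h6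
  refine ⟨d, ?_, ?_, ?_, fun P hPT hPd => ?_, fun P hPi hPd => ?_, ?_, ?_, hall⟩
  · rw [hdd]
    exact monic_prod_of_monic _ _ fun Q hQ => (hJ Q hQ).1
  · rw [hdd]
    exact Pool.Agent.N615.JM.prod_sqf J hJ'
  · rw [hdd, natDegree_prod_of_monic _ _ fun Q hQ => (hJ Q hQ).1]
    exact hD
  · have h3 := Pool.Agent.N615.JM.mem_of_dvd J hJ' (hT P hPT).1 (hT P hPT).2 (hdd ▸ hPd)
    exact (hJ P h3).2.2.1 hPT
  · obtain ⟨Q, hQ, hPQ⟩ := mem_of_dvd hJ' hPi (hdd ▸ hPd)
    obtain ⟨-, -, -, h3, h4⟩ := hJ Q hQ
    refine ⟨hPQ.dvd.trans h3, ?_⟩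
    exact irr_ideal (Ideal.span_singleton_eq_span_singleton.2 hPQ) h4
  · exact (hI d hd0).2.1
  · have h3 : ∀ P : k[X], Irreducible P → (Unramified k[X] P ∧ ¬ P ∣ (1 : k[X])) ∨
        IrreducibleMod f P := fun P hP =>
      Or.inl ⟨(splits_self P hP).1, fun h => hP.not_isUnit (isUnit_of_dvd_one h)⟩
    haveI : IsIntegralClosure k[X] k[X] K :=
      (isIntegrallyClosed_iff_isIntegralClosure (R := k[X]) (K := K)).1 inferInstance
    have h4 := hall K k[X] 0 1 (by rw [Module.finrank_self, pow_zero]) one_ne_zero
      (fun Q hQ _ => splits_self Q hQ) h3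
    rw [mul_one] at h4
    exact h4.2

/-- Let `g ≥ 1`, let `k` be a finite field of characteristic larger than `2 g + 1`, let `T` be a finite set
of primes of `k[t]` and `K = k(t)`. (1) For all large `N` the family is at least a positive proportion of
all curves of genus `g` over `K` with a rational Weierstrass point, of height at most `2 N`. (2) There is
`C > 0` such that for all `D ≥ 1` and all large `N` at most the proportion `C D ^ (-1 / (2000 g))` of
the curves of the family of height `2 N` has no small twist, of degree at most `D`. -/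
theorem result (g : ℕ) (hg : 1 ≤ g) (k : Type) [Field k] [Finite k]
    (hp : ((2 * g + 1).factorial : k) ≠ 0) (K : Type) [Field K] [Algebra k[X] K]
    [IsFractionRing k[X] K] (T : Finset k[X]) (hT : ∀ P ∈ T, P.Monic ∧ Irreducible P) :
    (∃ c : ℝ, 0 < c ∧ ∀ᶠ N : ℕ in atTop, (Curves k K g (2 * N)).Finite ∧
      Family T g N ⊆ Curves k K g (2 * N) ∧ 0 < (Family T g N).ncard ∧
      c * ((Curves k K g (2 * N)).ncard : ℝ) ≤ ((Family T g N).ncard : ℝ)) ∧
    ∃ C : ℝ, 0 < C ∧ ∀ D : ℕ, 1 ≤ D → ∀ᶠ N : ℕ in atTop,
      ({f ∈ Family T g N | ¬ HasSmallTwist K T D f}.ncard : ℝ) ≤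
        C * (D : ℝ) ^ (-(1 / (2000 * g : ℝ))) * ((Family T g N).ncard : ℝ) := by
  have hFam : ∀ N, Family T g N = {f : k[X][X] | Pool.Agent.Helper28H.FF.InF T g N f} := by
    intro N
    ext f
    constructor
    · intro h
      exact ⟨⟨h.monic, h.degree, h.trace, h.height⟩, h.infinity, h.discriminant, h.irreducible⟩
    · intro h
      exact ⟨h.ht.mon, h.ht.deg, h.ht.tr, h.ht.ht, h.inf, h.sq, h.irr⟩
  constructor
  · obtain ⟨c, hc, hge⟩ := Pool.Agent.Helper28H.FF.inF_ge hg hp T hT
    have hq : (0 : ℝ) < Nat.card k := by exact_mod_cast Nat.card_pos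
    refine ⟨c / (Nat.card k : ℝ) ^ (2 * g), by positivity, ?_⟩
    filter_upwards [hge] with N hN
    have hsub : Curves k K g (2 * N) ⊆ {f : k[X][X] | Pool.Agent.N352.PJ.Ht g (2 * N) f} :=
      fun f hf => ⟨hf.monic, hf.degree, hf.trace, hf.height⟩
    have hpos : (0 : ℝ) < ((Family T g N).ncard : ℝ) := by
      rw [hFam]
      refine lt_of_lt_of_le ?_ hN
      positivity
    refine ⟨(Pool.Agent.N415.PJMAIN.ht_card (k := k) g (2 * N)).1.subset hsub, ?_,
      by exact_mod_cast hpos, ?_⟩
    · intro f hf
      rw [hFam] at hf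
      have hI := Pool.Agent.N874.JM.parts.irk g k K f N
        (Pool.Agent.Helper28H.FF.rInf g N f) 1 hf.ht hf.goodR
        (hf.fam hg (S := ∅) (fun Q hQ => absurd hQ (Finset.notMem_empty _))).inf one_ne_zero
      refine ⟨hf.ht.mon, hf.ht.deg, hf.ht.tr, hf.ht.ht, (hI.2.2 hf.sq.ne_zero).1, ?_⟩
      have h1 := Pool.Agent.N352.PJ.mini_scale hg hf.ht.deg hf.sq (D := 1) squarefree_one
      rw [scaleRoots_one] at h1
      exact h1
    · have h1 := (Pool.Agent.N415.PJMAIN.ht_card (k := k) g (2 * N)).2
      have h2 := Set.ncard_le_ncard hsub (Pool.Agent.N415.PJMAIN.ht_card (k := k) g (2 * N)).1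
      have h3 : ((Curves k K g (2 * N)).ncard : ℝ) ≤
          (Nat.card k : ℝ) ^ (2 * N * Pool.Agent.N352.PJ.dd g + 2 * g) := by
        exact_mod_cast h2.trans h1
      rw [hFam]
      refine le_trans ?_ hN
      calc c / (Nat.card k : ℝ) ^ (2 * g) * ((Curves k K g (2 * N)).ncard : ℝ)
          ≤ c / (Nat.card k : ℝ) ^ (2 * g) *
            (Nat.card k : ℝ) ^ (2 * N * Pool.Agent.N352.PJ.dd g + 2 * g) := by gcongr
        _ = c * (Nat.card k : ℝ) ^ (2 * N * Pool.Agent.N352.PJ.dd g) := by
            rw [pow_add]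
            field_simp
  · obtain ⟨C, hC, h⟩ := Pool.Agent.Helper28H.FF.almost_all K hg hp T hT
    refine ⟨C, hC, fun D hD => ?_⟩
    filter_upwards [h D hD] with N hN
    rw [hFam]
    refine le_trans ?_ hN
    have hsub : {f ∈ {f : k[X][X] | Pool.Agent.Helper28H.FF.InF T g N f} |
        ¬ HasSmallTwist K T D f} ⊆ {f : k[X][X] | Pool.Agent.Helper28H.FF.InF T g N f ∧
          ¬ Pool.Agent.Helper28H.FF.Small K T D f} := by
      rintro f ⟨hf, hns⟩
      exact ⟨hf, fun hs => hns (small_twist K hT hg hp hf hs)⟩
    have hfin : {f : k[X][X] | Pool.Agent.Helper28H.FF.InF T g N f ∧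
          ¬ Pool.Agent.Helper28H.FF.Small K T D f}.Finite :=
      (Pool.Agent.Helper28H.FF.inF_fin T g N).subset fun f hf => hf.1
    exact_mod_cast Set.ncard_le_ncard hsub hfin

end Pool.Agent.Results.MP_ff7320_nt.AlmostAllUpToSmallTwist
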