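import Pool.Agent.Helper28H.QT.Fin
import Pool.Agent.Helper28H.QT.All
import Pool.Agent.Helper28H.FE.Quad2
import Pool.Agent.N874.Jac.Def

/-!
# The number of quadratic twists of a generic odd hyperelliptic curve over `k(t)` with rank zero for which the
# conjecture of Birch and Swinnerton-Dyer holds, in every local class

Let `k` be a finite field of odd characteristic with `q` elements, `K = k(t)`, `g ≥ 1`, and let `f` be a monic
polynomial of degree `2 g + 1` over `k[t]`. We assume that

* the Galois group of `f` over `K` has order `(2 g + 1)!`, so it is the full symmetric group,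
* some prime `P₀` of `k[t]` divides the discriminant of `f` exactly once.

A finite Galois extension `M` of `K` of 2-power degree is admissible for `f` and `e ∈ k[t]` if the place at
infinity, the primes whose squares divide the discriminant of `f` and the primes dividing `e` split
completely in `M`, and `f` is irreducible modulo all the primes which are ramified in `M`.

Theorem. Let `D₀ ∈ k[t]` be any squarefree polynomial prime to `P₀`, `S` a finite set of primes different from
`P₀`, `E₀` a finite Galois extension of `K` in which `P₀` is unramified, and `B ≥ 0`. There are a monic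
polynomial `d`, all of whose prime divisors are of even degree larger than `B` and split completely in `E₀`,
and `c > 0` such that for all large `N` at least

`c q ^ N / N ^ (2 g / (2 g + 1))`

of the squarefree polynomials `D` of degree at most `N` are of the form `D = D₀ D₁` with `d ∣ D₁`, where
`D₁` is monic and a square in the completions of `K` at infinity and at the primes in `S`, and for ALL `M`
which are admissible for `f` and `D₀ d` the Jacobian `J` of the quadratic twist of `y ^ 2 = f(x)` by `D` is
uniquely 2-divisible over `M` (so `J(M)` is finite, of odd order) and `Ш(J/M)[2^∞] = 0`. By the theorem of Artin,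
Tate, Milne, Schneider, Kato and Trihan the Tate-Shafarevich group is finite and the conjecture of Birch
and Swinnerton-Dyer holds for these `J` over these `M`. The field `K` is admissible, and every
admissible field is contained in admissible fields of arbitrarily large degree.

So for every such curve, every genus and every class of twists modulo squares at finitely many places
other than `P₀`, at least the proportion `c N ^ (- 2 g / (2 g + 1))` of the quadratic twists of degree at most `N`
in this class satisfy the conjecture, with rank zero. The exponent is the one of Mazur and Rubin for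
elliptic curves over number fields (`g = 1`).

Proof. `Pool/Agent/Helper28H/FE` (see the file `EveryGenericCurve.lean`) gives `d` for the twist of `f` by `D₀`, such that
the assertion is true for all `D = D₀ d δ` with `δ` admissible: `f` is irreducible modulo the primes dividing
`δ`, and `δ` is a square at infinity and at the bad primes. Here (`Pool/Agent/Helper28H/QT`) the admissible `δ`
are counted. The density (in the sense of Mertens) of the primes modulo which `f` is irreducible is
`1 / (2 g + 1)`, by a quantitative version of the theorem of Frobenius over `k(t)`; the products of such primes are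
counted by an elementary argument; they become squares at the bad places after multiplication by a bounded
factor, and a last large prime which is a square at the bad places is used to fill the range.

Project QT was written by helpers 23 (theorem of Frobenius with density), 32 (squares, injection), 42 (cycles),
59 (products of primes, windows) and 28, on the project FE (see `EveryGenericCurve.lean` and its headers).
-/

set_option autoImplicit false
set_option linter.all false

namespace Pool.Agent.Results.MP_ff7320_nt.NumberOfTwists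

open Polynomial IsDedekindDomain
open Pool.Agent.N874.Jac (UniquelyTwoDivisible Cochain Cocycle Coboundary TrivialOver power)
open scoped Classical

/-- The discriminant of a polynomial of degree `2 g + 1`, up to sign. -/
noncomputable def disc {k : Type} [Field k] (g : ℕ) (f : k[X][X]) : k[X] :=
  f.resultant (derivative f) (2 * g + 1) (2 * g)

/-- `f` is monic of degree `2 g + 1`, its Galois group over `K` is the full symmetric group, and the
prime `P₀` divides the discriminant exactly once. -/
structure IsGeneric {k : Type} [Field k] (K : Type) [Field K] [Algebra k[X] K] (g : ℕ)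
    (f : k[X][X]) (P₀ : k[X]) : Prop where
  monic : f.Monic
  degree : f.natDegree = 2 * g + 1
  galois : Nat.card (f.map (algebraMap k[X] K)).Gal = (2 * g + 1).factorial
  prime : Irreducible P₀
  dvd : P₀ ∣ disc g f
  once : ¬ P₀ ^ 2 ∣ disc g f

/-- The valuation `v` of `K = k(t)` is the place at infinity. (`R₁` is a Dedekind domain with field of
fractions `K`, for instance `k[1/t]`.) -/
def IsInfinity (k : Type) {K R₁ : Type} [Field k] [Field K] [Algebra k[X] K] [CommRing R₁]
    [IsDedekindDomain R₁] [Algebra R₁ K] [IsFractionRing R₁ K] (v : HeightOneSpectrum R₁) : Prop :=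
  ∀ p : k[X], p ≠ 0 → v.valuation K (algebraMap k[X] K p) = WithZero.exp (p.natDegree : ℤ)

/-- `f` is irreducible modulo `P`. -/
def IrreducibleMod {k : Type} [Field k] (f : k[X][X]) (P : k[X]) : Prop :=
  Irreducible (f.map (Ideal.Quotient.mk (Ideal.span {P})))

/-- `P` is unramified in the extension `R` of `k[t]`. -/
def UnramifiedIn (R : Type) {k : Type} [Field k] [CommRing R] [Algebra k[X] R] (P : k[X]) : Prop :=
  ∀ w : HeightOneSpectrum R, algebraMap k[X] R P ∈ w.asIdeal → algebraMap k[X] R P ∉ w.asIdeal ^ 2

/-- `P` is unramified in the extension `M` of `K`: it is unramified in the integral closure of `k[t]`. -/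
def Unramified (M : Type) {k : Type} [Field k] [Field M] [Algebra k[X] M] (P : k[X]) : Prop :=
  UnramifiedIn (integralClosure k[X] M) P

/-- `P` splits completely in the extension `R` of `k[t]`: at all primes `w` over `P` it is unramified,
and every element of `R` is congruent to a polynomial. -/
def SplitsIn (R : Type) {k : Type} [Field k] [CommRing R] [Algebra k[X] R] (P : k[X]) : Prop :=
  ∀ w : HeightOneSpectrum R, algebraMap k[X] R P ∈ w.asIdeal →
    algebraMap k[X] R P ∉ w.asIdeal ^ 2 ∧ ∀ y : R, ∃ c : k[X], y - algebraMap k[X] R c ∈ w.asIdeal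

/-- `P` splits completely in the extension `M` of `K`: it does so in the integral closure of `k[t]`. -/
def SplitsCompletely (M : Type) {k : Type} [Field k] [Field M] [Algebra k[X] M] (P : k[X]) :
    Prop :=
  SplitsIn (integralClosure k[X] M) P

section

variable {k : Type} [Field k] (K : Type) [Field K] [Algebra k[X] K] [IsFractionRing k[X] K]
  {R₁ : Type} [CommRing R₁] [IsDedekindDomain R₁] [Algebra R₁ K] [IsFractionRing R₁ K]
  (v₁ : HeightOneSpectrum R₁)

/-- The extension `M` of `K` is admissible for `f` and `d`: it is Galois of 2-power degree; the place at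
infinity, the primes whose squares divide the discriminant of `f`, and the primes dividing `d` split
completely in `M` (for the place at infinity: there is an embedding of the Galois extension `M` in the
completion of `K`), and `f` is irreducible modulo the primes which are ramified in `M`. -/
structure AdmissibleField (g : ℕ) (f : k[X][X]) (d : k[X]) (M : Type) [Field M] [Algebra K M]
    [Algebra k[X] M] : Prop where
  galois : IsGalois K M
  degree : ∃ n : ℕ, Module.finrank K M = 2 ^ n
  bad : ∀ P : k[X], Irreducible P → P ^ 2 ∣ disc g f → SplitsCompletely M P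
  split : ∀ P : k[X], Irreducible P → P ∣ d → SplitsCompletely M P
  ramified : ∀ P : k[X], Irreducible P → ¬ Unramified M P → IrreducibleMod f P
  infinity : Nonempty (M →ₐ[K] v₁.adicCompletion K)

/-- The field `E` is a completion of `M`: the completion at a maximal ideal of the integral closure `R`
of `k[t]` in `M`, or the completion of `K` at infinity with an embedding `φ` of `M` over `K`. -/
def IsCompletion {M : Type} [Field M] [Algebra K M] (R : Type) [CommRing R] [IsDedekindDomain R]
    [Algebra R M] [IsFractionRing R M] (E : Type) [Field E] [Algebra M E] : Prop :=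
  (∃ w : HeightOneSpectrum R, Nonempty (E ≃ₐ[M] w.adicCompletion M)) ∨
  ∃ (φ : M →ₐ[K] v₁.adicCompletion K) (e : E ≃+* v₁.adicCompletion K),
    ∀ x : M, e (algebraMap M E x) = φ x

/-- Multiplication by two is bijective on `J(M)`, `J` the Jacobian of `y ^ 2 = F(x)`, and every class of
2-power order in `H ^ 1 (M, J)` which is zero over all completions of `M` is zero. -/
def NoTwoPart {M : Type} [Field M] [Algebra K M] (R : Type) [CommRing R] [IsDedekindDomain R]
    [Algebra R M] [IsFractionRing R M] (F : M[X]) : Prop :=
  UniquelyTwoDivisible F ∧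
  ∀ (c : Cochain F) (m : ℕ), Cocycle c →
    (∀ (E : Type) [Field E] [Algebra M E], IsCompletion K v₁ (M := M) R E → TrivialOver E c) →
    Coboundary (power c (2 ^ m)) → Coboundary c

/-- The quadratic twist of `y ^ 2 = f(x)` by `d`, over `M`. -/
noncomputable def twist (d : k[X]) (f : k[X][X]) (M : Type) [Field M] [Algebra k[X] M] : M[X] :=
  (f.scaleRoots d).map (algebraMap k[X] M)

/-- For all extensions `M` admissible for `f` and `e` the Jacobian of the twist of `y ^ 2 = f(x)` by `D`
has no 2-part over `M`. Here `R` is the integral closure of `k[t]` in `M`. -/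
def NoTwoPartOverAll (g : ℕ) (f : k[X][X]) (e D : k[X]) : Prop :=
  ∀ (M : Type) [Field M] [Algebra K M] [Algebra k[X] M] [IsScalarTower k[X] K M]
    [FiniteDimensional K M] (R : Type) [CommRing R] [IsDedekindDomain R]
    [Algebra R M] [IsFractionRing R M] [Algebra k[X] R] [IsScalarTower k[X] R M]
    [IsIntegralClosure R k[X] M], AdmissibleField K v₁ g f e M →
    Irreducible (twist D f M) ∧ (twist D f M).Separable ∧ NoTwoPart K v₁ R (twist D f M)

/-- The polynomial `δ` is a square in the completion of `K` at `v`. -/
def SquareAt {R₂ : Type} [CommRing R₂] [IsDedekindDomain R₂] [Algebra R₂ K] [IsFractionRing R₂ K]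
    (v : HeightOneSpectrum R₂) (δ : k[X]) : Prop :=
  IsSquare (algebraMap K (v.adicCompletion K) (algebraMap k[X] K δ))

/-- `D = D₀ D₁`, where `D₁` is monic and divisible by `d`, and a square in the completions of `K` at
infinity (the place `v₁`) and at the primes in `S`. -/
def InClass (S : Finset k[X]) (D₀ d D : k[X]) : Prop :=
  ∃ D₁ : k[X], D = D₀ * D₁ ∧ D₁.Monic ∧ d ∣ D₁ ∧ SquareAt K v₁ D₁ ∧
    ∀ P ∈ S, ∀ v : HeightOneSpectrum k[X], v.asIdeal = Ideal.span {P} → SquareAt K v D₁

/-- The squarefree polynomial `D` is in the class of `D₀`, and the Jacobian of the twist by `D` has no 2-part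
over all the `M` which are admissible for `f` and `D₀ d`. -/
def GoodTwist (g : ℕ) (f : k[X][X]) (S : Finset k[X]) (D₀ d D : k[X]) : Prop :=
  Squarefree D ∧ InClass K v₁ S D₀ d D ∧ NoTwoPartOverAll K v₁ g f (D₀ * d) D

/-- The good `D` of degree at most `N`. -/
def goodTwists (g : ℕ) (f : k[X][X]) (S : Finset k[X]) (D₀ d : k[X]) (N : ℕ) : Set k[X] :=
  {D | D.natDegree ≤ N ∧ GoodTwist K v₁ g f S D₀ d D}

end

section

variable {k : Type} [Field k] {K : Type} [Field K] [Algebra k[X] K] [IsFractionRing k[X] K]
  {R₁ : Type} [CommRing R₁] [IsDedekindDomain R₁] [Algebra R₁ K] [IsFractionRing R₁ K]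
  {v₁ : HeightOneSpectrum R₁}

theorem IsGeneric.hyp {g : ℕ} {f : k[X][X]} {P₀ : k[X]} (hg : 1 ≤ g) (h2 : (2 : k) ≠ 0)
    (h : IsGeneric K g f P₀) : Pool.Agent.Helper28H.FE.Hyp K g f P₀ :=
  ⟨hg, h2, h.monic, h.degree, h.galois, h.prime, h.dvd, h.once⟩

theorem AdmissibleField.adm {g : ℕ} {f : k[X][X]} {d : k[X]} {M : Type} [Field M] [Algebra K M]
    [Algebra k[X] M] (h : AdmissibleField K v₁ g f d M) :
    Pool.Agent.Helper28H.FE.AdmM g K M v₁ f d :=
  ⟨h.galois, h.degree, h.bad, h.split, h.ramified, h.infinity⟩

theorem AdmissibleField.of {g : ℕ} {f : k[X][X]} {d : k[X]} {M : Type} [Field M] [Algebra K M]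
    [Algebra k[X] M] (h : Pool.Agent.Helper28H.FE.AdmM g K M v₁ f d) :
    AdmissibleField K v₁ g f d M :=
  ⟨h.gal, h.deg, h.bad, h.spl, h.ram, h.inf⟩

theorem splits_assoc {M : Type} [Field M] [Algebra k[X] M] {P Q : k[X]} (h : Associated P Q)
    (hs : SplitsCompletely M Q) : SplitsCompletely M P := by
  have key : ∀ I : Ideal (integralClosure k[X] M),
      (algebraMap k[X] (integralClosure k[X] M) P ∈ I ↔
        algebraMap k[X] (integralClosure k[X] M) Q ∈ I) := by
    intro I
    constructor
    · obtain ⟨u, hu⟩ := h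
      intro h1
      rw [← hu, map_mul]
      exact Ideal.mul_mem_right _ _ h1
    · obtain ⟨u, hu⟩ := h.symm
      intro h1
      rw [← hu, map_mul]
      exact Ideal.mul_mem_right _ _ h1
  intro w hw
  obtain ⟨h1, h2⟩ := hs w ((key _).1 hw)
  exact ⟨fun h3 => h1 ((key _).1 h3), h2⟩

/-- The twists are separable. -/
theorem sep_twist {g : ℕ} {f : k[X][X]} {P₀ : k[X]} (h : IsGeneric K g f P₀) {D : k[X]}
    (hD : D ≠ 0) (M : Type) [Field M] [Algebra K M] [Algebra k[X] M] [IsScalarTower k[X] K M] :
    (twist D f M).Separable := by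
  have hm := h.monic
  have hd := h.degree
  have h0 : Pool.Agent.N352.PJ.dsc g f ≠ 0 := fun h0 => h.once (by
    have : disc g f = 0 := h0
    rw [this]
    exact dvd_zero _)
  have h1 : Pool.Agent.N352.PJ.dsc g (f.scaleRoots D) ≠ 0 := by
    rw [(Pool.Agent.Helper28H.FE.dscInv g k f hm hd).2 D hD]
    exact mul_ne_zero (pow_ne_zero _ hD) h0
  have h3 := Pool.Agent.Helper28H.FE.ASM.sepK (K := K) (g := g)
    ((monic_scaleRoots_iff D).2 hm) (by rw [natDegree_scaleRoots, hd]) h1
  have h4 := h3.map (f := algebraMap K M)
  rwa [Polynomial.map_map, ← IsScalarTower.algebraMap_eq k[X] K M] at h4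

end

/-- Every extension `L` which is admissible for `f` and `d` is contained in admissible extensions of
degree `2 ^ n` over `L`, for all `n`. -/
def Towers {k : Type} [Field k] (K : Type) [Field K] [Algebra k[X] K] [IsFractionRing k[X] K]
    {R₁ : Type} [CommRing R₁] [IsDedekindDomain R₁] [Algebra R₁ K] [IsFractionRing R₁ K]
    (v₁ : HeightOneSpectrum R₁) (g : ℕ) (f : k[X][X]) (d : k[X]) : Prop :=
  ∀ (L : Type) [Field L] [Algebra K L] [Algebra k[X] L] [IsScalarTower k[X] K L]
    [FiniteDimensional K L], AdmissibleField K v₁ g f d L → ∀ n : ℕ,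
    ∃ (L' : Type) (_ : Field L') (_ : Algebra K L') (_ : Algebra k[X] L')
      (_ : IsScalarTower k[X] K L') (_ : FiniteDimensional K L'), Nonempty (L →ₐ[K] L') ∧
      Module.finrank K L' = Module.finrank K L * 2 ^ n ∧ AdmissibleField K v₁ g f d L'

/-- Let `g ≥ 1`, let `k` be a finite field of odd characteristic and `K = k(t)`. There is a place at
infinity. Let `f` be generic, with the prime `P₀`, let `E₀` be a finite Galois extension of `K` in which
`P₀` is unramified, `S` a finite set of primes other than `P₀`, `D₀` squarefree and prime to `P₀`, and `B ≥ 0`.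
There are a monic `d`, whose prime divisors are of even degree larger than `B` and split completely in `E₀`,
with `D₀ d` squarefree, and `c > 0`, such that for all large `N` at least `c q ^ N / N ^ (2 g / (2 g + 1))`
polynomials of degree at most `N` are good twists; the field `K` is admissible for `f` and `D₀ d`, and
there are towers of admissible fields. -/
theorem result (g : ℕ) (hg : 1 ≤ g) (k : Type) [Field k] [Finite k] (h2 : (2 : k) ≠ 0) (K : Type)
    [Field K] [Algebra k[X] K] [IsFractionRing k[X] K] :
    (∃ (R₁ : Type) (_ : CommRing R₁) (_ : IsDedekindDomain R₁) (_ : Algebra R₁ K)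
      (_ : IsFractionRing R₁ K) (v₁ : HeightOneSpectrum R₁), IsInfinity k (K := K) v₁) ∧
    ∀ (R₁ : Type) [CommRing R₁] [IsDedekindDomain R₁] [Algebra R₁ K] [IsFractionRing R₁ K]
      (v₁ : HeightOneSpectrum R₁), IsInfinity k (K := K) v₁ →
    ∀ (f : k[X][X]) (P₀ : k[X]), IsGeneric K g f P₀ →
    ∀ (E₀ : Type) [Field E₀] [Algebra K E₀] [Algebra k[X] E₀] [IsScalarTower k[X] K E₀]
      [FiniteDimensional K E₀] [IsGalois K E₀], Unramified E₀ P₀ →
    ∀ (S : Finset k[X]), (∀ P ∈ S, P.Monic ∧ Irreducible P ∧ ¬ P₀ ∣ P) →
    ∀ D₀ : k[X], Squarefree D₀ → ¬ P₀ ∣ D₀ → ∀ B : ℕ,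
    ∃ d : k[X], d.Monic ∧ Squarefree (D₀ * d) ∧
      (∀ Q : k[X], Irreducible Q → Q ∣ d →
        B < Q.natDegree ∧ Even Q.natDegree ∧ SplitsCompletely E₀ Q) ∧
      AdmissibleField K v₁ g f (D₀ * d) K ∧ Towers K v₁ g f (D₀ * d) ∧
      ∃ (c : ℝ) (N₀ : ℕ), 0 < c ∧ ∀ N : ℕ, N₀ ≤ N →
        c * (Nat.card k : ℝ) ^ N / (N : ℝ) ^ ((2 * g : ℝ) / (2 * g + 1)) ≤
          (((goodTwists K v₁ g f S D₀ d N).ncard : ℕ) : ℝ) := by
  refine ⟨Pool.Agent.Helper28H.FE.inf k K, ?_⟩
  intro R₁ _ _ _ _ v₁ hv f P₀ hf E₀ _ _ _ _ _ _ hE S hS D₀ hD₀ hPD B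
  have hyp := hf.hyp hg h2
  have h2K : ∀ (M : Type) [Field M] [Algebra k[X] M], (2 : M) ≠ 0 := by
    intro M _ _ h0
    obtain ⟨c, hc⟩ := Pool.Agent.Helper28H.FE.Cyc.two_unit (A := M) h2
    rw [h0, mul_zero] at hc
    exact zero_ne_one hc
  have h0 : D₀ ≠ 0 := hD₀.ne_zero
  obtain ⟨d, hdm, hsq, hP₀, hdQ, c, N₀, hc, hcount⟩ :=
    Pool.Agent.Helper28H.QT.core Pool.Agent.Helper28H.QT.cntT Pool.Agent.Helper28H.QT.cnpT g k K f
      P₀ R₁ v₁ E₀ B hyp hv hE S hS D₀ hD₀ hPD
  have hd0 : d ≠ 0 := hdm.ne_zero
  obtain ⟨T, hT, hTP⟩ := Pool.Agent.Helper28H.QT.exists_T hyp (mul_ne_zero h0 hd0) hP₀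
  have hgood : ∀ D₁ : k[X], Pool.Agent.Helper28H.QT.Good K v₁ g f S D₀ d D₁ →
      GoodTwist K v₁ g f S D₀ d (D₀ * D₁) := by
    intro D₁ hG
    refine ⟨hG.sqf, ⟨D₁, rfl, hG.mon, hG.dvd, hG.inf, hG.loc⟩, ?_⟩
    intro M _ _ _ _ _ R _ _ _ _ _ _ _ hM
    obtain ⟨h3, h4⟩ := hG.sel M R hM.adm
    have hD0 : D₀ * D₁ ≠ 0 := hG.sqf.ne_zero
    have hsep := sep_twist hf hD0 M
    have hmT : (twist (D₀ * D₁) f M).Monic := ((monic_scaleRoots_iff _).2 hf.monic).map _
    have hoT : Odd (twist (D₀ * D₁) f M).natDegree := by
      rw [twist, ((monic_scaleRoots_iff _).2 hf.monic).natDegree_map, natDegree_scaleRoots,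
        hf.degree]
      exact odd_two_mul_add_one g
    obtain ⟨h5, h6⟩ := Pool.Agent.N352.JB.gen (h2K M) hmT h3 hsep hoT h4
    exact ⟨h3, hsep, Pool.Agent.N874.Jac.div_of _ h5, fun c m h7 h8 h9 => h6 c m h7 h8 h9⟩
  refine ⟨d, hdm, hsq, hdQ, ?_, ?_, c, N₀, hc, fun N hN => ?_⟩
  · refine ⟨inferInstance, ⟨0, by rw [Module.finrank_self, pow_zero]⟩, fun P hP _ => ?_,
      fun P hP _ => ?_, fun P hP hu => ?_, ⟨Algebra.ofId K _⟩⟩
    · exact Pool.Agent.Helper28H.FE.MainE.split_base hP
    · exact Pool.Agent.Helper28H.FE.MainE.split_base hP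
    · exact absurd (fun w hw => (Pool.Agent.Helper28H.FE.MainE.split_base hP w hw).1) hu
  · intro L _ _ _ _ _ hL n
    obtain ⟨E, iF, iA, iX, iT, iFD, h3, h4, h5⟩ :=
      Pool.Agent.Helper28H.FE.Quad2.tower hv hyp hT hTP L hL.adm n
    exact ⟨E, iF, iA, iX, iT, iFD, h3, h4, AdmissibleField.of h5⟩
  · refine (hcount N hN).1.trans ?_
    norm_cast
    refine Set.ncard_le_ncard_of_injOn (fun D₁ => D₀ * D₁) ?_
      (fun a _ b _ hab => mul_left_cancel₀ h0 hab)
      ((Pool.Agent.Helper28H.QT.fin_natDegree (k := k) N).subset fun D hD => hD.1)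
    rintro D₁ ⟨hG, hN1⟩
    exact ⟨hN1, hgood D₁ hG⟩

end Pool.Agent.Results.MP_ff7320_nt.NumberOfTwists
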