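import Pool.Agent.Helper28H.QT.Fin
import Pool.Agent.Helper28H.QT.All
import Pool.Agent.Helper28H.FE.Quad2
import Pool.Agent.N874.Jac.Def

/-!
# A positive proportion of the prime twists of a generic odd hyperelliptic curve over `k(t)`, in every
# class, has rank zero and satisfies the conjecture of Birch and Swinnerton-Dyer

Let `k` be a finite field of odd characteristic with `q` elements, `K = k(t)`, `g ≥ 1`, and let `f` be a monic
polynomial of degree `2 g + 1` over `k[t]`. We assume that

* the Galois group of `f` over `K` has order `(2 g + 1)!`, so it is the full symmetric group,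
* some prime `P₀` of `k[t]` divides the discriminant of `f` exactly once.

A finite Galois extension `M` of `K` of 2-power degree is admissible for `f` and `e ∈ k[t]` if the place at
infinity, the primes whose squares divide the discriminant of `f` and the primes dividing `e` split
completely in `M`, and `f` is irreducible modulo all the primes which are ramified in `M`.

Theorem. Let `D₀ ∈ k[t]` be any squarefree polynomial prime to `P₀`, `S` a finite set of primes different from
`P₀`, `E₀` a finite Galois extension of `K` in which `P₀` is unramified, and `B ≥ 0`. There are a monic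
polynomial `d`, all of whose prime divisors are of even degree larger than `B` and split completely in `E₀`,
and `c > 0` such that for all large `N` at least `c q ^ N / N` of the primes `p` of degree at most `N`, so
a positive proportion of all primes, have: `D = D₀ d p` is squarefree, `d p` is a square in the completions
of `K` at infinity and at the primes in `S`, and for ALL `M` which are admissible for `f` and `D₀ d` the
Jacobian `J` of the quadratic twist of `y ^ 2 = f(x)` by `D` is uniquely 2-divisible over `M` (so `J(M)` is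
finite, of odd order) and `Ш(J/M)[2^∞] = 0`. By the theorem of Artin, Tate, Milne, Schneider, Kato and
Trihan the Tate-Shafarevich group is finite and the conjecture of Birch and Swinnerton-Dyer holds for these
`J` over these `M`. The field `K` is admissible, and every admissible field is contained in admissible fields
of arbitrarily large degree.

In `NumberOfTwists.lean` all twists are counted; here the twist is fixed up to one prime.

Proof. `Pool/Agent/Helper28H/FE` and `Pool/Agent/Helper28H/QT`: the assertion is true for all primes `p`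
modulo which `f` is irreducible and which are squares at infinity and at the bad primes. These primes have
a positive density, by a quantitative version of the theorem of Frobenius over `k(t)`.

Project QT was written by helpers 23 (theorem of Frobenius with density), 32 (squares, injection), 42 (cycles),
59 (products of primes, windows) and 28, on the project FE (see `EveryGenericCurve.lean` and its headers).
-/

set_option autoImplicit false
set_option linter.all false

namespace Pool.Agent.Results.MP_ff7320_nt.PositiveProportionOfPrimes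

open Polynomial IsDedekindDomain
open Pool.Agent.N874.Jac (UniquelyTwoDivisible Cochain Cocycle Coboundary TrivialOver power)
open scoped Classical

/-- The discriminant of a polynomial of degree `2 g + 1`, up to sign. -/
noncomputable def disc {k : Type} [Field k] (g : ℕ) (f : k[X][X]) : k[X] :=
  f.resultant (derivative f) (2 * g + 1) (2 * g)

/-- `f` is monic of degree `2 g + 1`, its Galois group over `K` is the full symmetric group, and the
prime `P₀` divides the discriminant exactly once. -/
structure IsGeneric {k : Type} [Field k] (K : Type) [Field K] [Algebra k[X] K] (g : ℕ)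
    (f : k[X][X]) (P₀ : k[X]) : Prop where
  monic : f.Monic
  degree : f.natDegree = 2 * g + 1
  galois : Nat.card (f.map (algebraMap k[X] K)).Gal = (2 * g + 1).factorial
  prime : Irreducible P₀
  dvd : P₀ ∣ disc g f
  once : ¬ P₀ ^ 2 ∣ disc g f

/-- The valuation `v` of `K = k(t)` is the place at infinity. (`R₁` is a Dedekind domain with field of
fractions `K`, for instance `k[1/t]`.) -/
def IsInfinity (k : Type) {K R₁ : Type} [Field k] [Field K] [Algebra k[X] K] [CommRing R₁]
    [IsDedekindDomain R₁] [Algebra R₁ K] [IsFractionRing R₁ K] (v : HeightOneSpectrum R₁) : Prop :=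
  ∀ p : k[X], p ≠ 0 → v.valuation K (algebraMap k[X] K p) = WithZero.exp (p.natDegree : ℤ)

/-- `f` is irreducible modulo `P`. -/
def IrreducibleMod {k : Type} [Field k] (f : k[X][X]) (P : k[X]) : Prop :=
  Irreducible (f.map (Ideal.Quotient.mk (Ideal.span {P})))

/-- `P` is unramified in the extension `R` of `k[t]`. -/
def UnramifiedIn (R : Type) {k : Type} [Field k] [CommRing R] [Algebra k[X] R] (P : k[X]) : Prop :=
  ∀ w : HeightOneSpectrum R, algebraMap k[X] R P ∈ w.asIdeal → algebraMap k[X] R P ∉ w.asIdeal ^ 2

/-- `P` is unramified in the extension `M` of `K`: it is unramified in the integral closure of `k[t]`. -/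
def Unramified (M : Type) {k : Type} [Field k] [Field M] [Algebra k[X] M] (P : k[X]) : Prop :=
  UnramifiedIn (integralClosure k[X] M) P

/-- `P` splits completely in the extension `R` of `k[t]`: at all primes `w` over `P` it is unramified,
and every element of `R` is congruent to a polynomial. -/
def SplitsIn (R : Type) {k : Type} [Field k] [CommRing R] [Algebra k[X] R] (P : k[X]) : Prop :=
  ∀ w : HeightOneSpectrum R, algebraMap k[X] R P ∈ w.asIdeal →
    algebraMap k[X] R P ∉ w.asIdeal ^ 2 ∧ ∀ y : R, ∃ c : k[X], y - algebraMap k[X] R c ∈ w.asIdeal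

/-- `P` splits completely in the extension `M` of `K`: it does so in the integral closure of `k[t]`. -/
def SplitsCompletely (M : Type) {k : Type} [Field k] [Field M] [Algebra k[X] M] (P : k[X]) :
    Prop :=
  SplitsIn (integralClosure k[X] M) P

section

variable {k : Type} [Field k] (K : Type) [Field K] [Algebra k[X] K] [IsFractionRing k[X] K]
  {R₁ : Type} [CommRing R₁] [IsDedekindDomain R₁] [Algebra R₁ K] [IsFractionRing R₁ K]
  (v₁ : HeightOneSpectrum R₁)

/-- The extension `M` of `K` is admissible for `f` and `d`: it is Galois of 2-power degree; the place at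
infinity, the primes whose squares divide the discriminant of `f`, and the primes dividing `d` split
completely in `M` (for the place at infinity: there is an embedding of the Galois extension `M` in the
completion of `K`), and `f` is irreducible modulo the primes which are ramified in `M`. -/
structure AdmissibleField (g : ℕ) (f : k[X][X]) (d : k[X]) (M : Type) [Field M] [Algebra K M]
    [Algebra k[X] M] : Prop where
  galois : IsGalois K M
  degree : ∃ n : ℕ, Module.finrank K M = 2 ^ n
  bad : ∀ P : k[X], Irreducible P → P ^ 2 ∣ disc g f → SplitsCompletely M P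
  split : ∀ P : k[X], Irreducible P → P ∣ d → SplitsCompletely M P
  ramified : ∀ P : k[X], Irreducible P → ¬ Unramified M P → IrreducibleMod f P
  infinity : Nonempty (M →ₐ[K] v₁.adicCompletion K)

/-- The field `E` is a completion of `M`: the completion at a maximal ideal of the integral closure `R`
of `k[t]` in `M`, or the completion of `K` at infinity with an embedding `φ` of `M` over `K`. -/
def IsCompletion {M : Type} [Field M] [Algebra K M] (R : Type) [CommRing R] [IsDedekindDomain R]
    [Algebra R M] [IsFractionRing R M] (E : Type) [Field E] [Algebra M E] : Prop :=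
  (∃ w : HeightOneSpectrum R, Nonempty (E ≃ₐ[M] w.adicCompletion M)) ∨
  ∃ (φ : M →ₐ[K] v₁.adicCompletion K) (e : E ≃+* v₁.adicCompletion K),
    ∀ x : M, e (algebraMap M E x) = φ x

/-- Multiplication by two is bijective on `J(M)`, `J` the Jacobian of `y ^ 2 = F(x)`, and every class of
2-power order in `H ^ 1 (M, J)` which is zero over all completions of `M` is zero. -/
def NoTwoPart {M : Type} [Field M] [Algebra K M] (R : Type) [CommRing R] [IsDedekindDomain R]
    [Algebra R M] [IsFractionRing R M] (F : M[X]) : Prop :=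
  UniquelyTwoDivisible F ∧
  ∀ (c : Cochain F) (m : ℕ), Cocycle c →
    (∀ (E : Type) [Field E] [Algebra M E], IsCompletion K v₁ (M := M) R E → TrivialOver E c) →
    Coboundary (power c (2 ^ m)) → Coboundary c

/-- The quadratic twist of `y ^ 2 = f(x)` by `d`, over `M`. -/
noncomputable def twist (d : k[X]) (f : k[X][X]) (M : Type) [Field M] [Algebra k[X] M] : M[X] :=
  (f.scaleRoots d).map (algebraMap k[X] M)

/-- For all extensions `M` admissible for `f` and `e` the Jacobian of the twist of `y ^ 2 = f(x)` by `D`
has no 2-part over `M`. Here `R` is the integral closure of `k[t]` in `M`. -/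
def NoTwoPartOverAll (g : ℕ) (f : k[X][X]) (e D : k[X]) : Prop :=
  ∀ (M : Type) [Field M] [Algebra K M] [Algebra k[X] M] [IsScalarTower k[X] K M]
    [FiniteDimensional K M] (R : Type) [CommRing R] [IsDedekindDomain R]
    [Algebra R M] [IsFractionRing R M] [Algebra k[X] R] [IsScalarTower k[X] R M]
    [IsIntegralClosure R k[X] M], AdmissibleField K v₁ g f e M →
    Irreducible (twist D f M) ∧ (twist D f M).Separable ∧ NoTwoPart K v₁ R (twist D f M)

/-- The polynomial `δ` is a square in the completion of `K` at `v`. -/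
def SquareAt {R₂ : Type} [CommRing R₂] [IsDedekindDomain R₂] [Algebra R₂ K] [IsFractionRing R₂ K]
    (v : HeightOneSpectrum R₂) (δ : k[X]) : Prop :=
  IsSquare (algebraMap K (v.adicCompletion K) (algebraMap k[X] K δ))

/-- `D = D₀ D₁`, where `D₁` is monic and divisible by `d`, and a square in the completions of `K` at
infinity (the place `v₁`) and at the primes in `S`. -/
def InClass (S : Finset k[X]) (D₀ d D : k[X]) : Prop :=
  ∃ D₁ : k[X], D = D₀ * D₁ ∧ D₁.Monic ∧ d ∣ D₁ ∧ SquareAt K v₁ D₁ ∧
    ∀ P ∈ S, ∀ v : HeightOneSpectrum k[X], v.asIdeal = Ideal.span {P} → SquareAt K v D₁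

/-- The squarefree polynomial `D` is in the class of `D₀`, and the Jacobian of the twist by `D` has no 2-part
over all the `M` which are admissible for `f` and `D₀ d`. -/
def GoodTwist (g : ℕ) (f : k[X][X]) (S : Finset k[X]) (D₀ d D : k[X]) : Prop :=
  Squarefree D ∧ InClass K v₁ S D₀ d D ∧ NoTwoPartOverAll K v₁ g f (D₀ * d) D

/-- The primes `p` of degree at most `N` such that `D₀ d p` is good. -/
def goodPrimes (g : ℕ) (f : k[X][X]) (S : Finset k[X]) (D₀ d : k[X]) (N : ℕ) : Set k[X] :=
  {p | p.natDegree ≤ N ∧ p.Monic ∧ Irreducible p ∧ GoodTwist K v₁ g f S D₀ d (D₀ * d * p)}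

end

section

variable {k : Type} [Field k] {K : Type} [Field K] [Algebra k[X] K] [IsFractionRing k[X] K]
  {R₁ : Type} [CommRing R₁] [IsDedekindDomain R₁] [Algebra R₁ K] [IsFractionRing R₁ K]
  {v₁ : HeightOneSpectrum R₁}

theorem IsGeneric.hyp {g : ℕ} {f : k[X][X]} {P₀ : k[X]} (hg : 1 ≤ g) (h2 : (2 : k) ≠ 0)
    (h : IsGeneric K g f P₀) : Pool.Agent.Helper28H.FE.Hyp K g f P₀ :=
  ⟨hg, h2, h.monic, h.degree, h.galois, h.prime, h.dvd, h.once⟩

theorem AdmissibleField.adm {g : ℕ} {f : k[X][X]} {d : k[X]} {M : Type} [Field M] [Algebra K M]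
    [Algebra k[X] M] (h : AdmissibleField K v₁ g f d M) :
    Pool.Agent.Helper28H.FE.AdmM g K M v₁ f d :=
  ⟨h.galois, h.degree, h.bad, h.split, h.ramified, h.infinity⟩

theorem AdmissibleField.of {g : ℕ} {f : k[X][X]} {d : k[X]} {M : Type} [Field M] [Algebra K M]
    [Algebra k[X] M] (h : Pool.Agent.Helper28H.FE.AdmM g K M v₁ f d) :
    AdmissibleField K v₁ g f d M :=
  ⟨h.gal, h.deg, h.bad, h.spl, h.ram, h.inf⟩

theorem splits_assoc {M : Type} [Field M] [Algebra k[X] M] {P Q : k[X]} (h : Associated P Q)
    (hs : SplitsCompletely M Q) : SplitsCompletely M P := by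
  have key : ∀ I : Ideal (integralClosure k[X] M),
      (algebraMap k[X] (integralClosure k[X] M) P ∈ I ↔
        algebraMap k[X] (integralClosure k[X] M) Q ∈ I) := by
    intro I
    constructor
    · obtain ⟨u, hu⟩ := h
      intro h1
      rw [← hu, map_mul]
      exact Ideal.mul_mem_right _ _ h1
    · obtain ⟨u, hu⟩ := h.symm
      intro h1
      rw [← hu, map_mul]
      exact Ideal.mul_mem_right _ _ h1
  intro w hw
  obtain ⟨h1, h2⟩ := hs w ((key _).1 hw)
  exact ⟨fun h3 => h1 ((key _).1 h3), h2⟩

/-- The twists are separable. -/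
theorem sep_twist {g : ℕ} {f : k[X][X]} {P₀ : k[X]} (h : IsGeneric K g f P₀) {D : k[X]}
    (hD : D ≠ 0) (M : Type) [Field M] [Algebra K M] [Algebra k[X] M] [IsScalarTower k[X] K M] :
    (twist D f M).Separable := by
  have hm := h.monic
  have hd := h.degree
  have h0 : Pool.Agent.N352.PJ.dsc g f ≠ 0 := fun h0 => h.once (by
    have : disc g f = 0 := h0
    rw [this]
    exact dvd_zero _)
  have h1 : Pool.Agent.N352.PJ.dsc g (f.scaleRoots D) ≠ 0 := by
    rw [(Pool.Agent.Helper28H.FE.dscInv g k f hm hd).2 D hD]
    exact mul_ne_zero (pow_ne_zero _ hD) h0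
  have h3 := Pool.Agent.Helper28H.FE.ASM.sepK (K := K) (g := g)
    ((monic_scaleRoots_iff D).2 hm) (by rw [natDegree_scaleRoots, hd]) h1
  have h4 := h3.map (f := algebraMap K M)
  rwa [Polynomial.map_map, ← IsScalarTower.algebraMap_eq k[X] K M] at h4

end

/-- Every extension `L` which is admissible for `f` and `d` is contained in admissible extensions of
degree `2 ^ n` over `L`, for all `n`. -/
def Towers {k : Type} [Field k] (K : Type) [Field K] [Algebra k[X] K] [IsFractionRing k[X] K]
    {R₁ : Type} [CommRing R₁] [IsDedekindDomain R₁] [Algebra R₁ K] [IsFractionRing R₁ K]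
    (v₁ : HeightOneSpectrum R₁) (g : ℕ) (f : k[X][X]) (d : k[X]) : Prop :=
  ∀ (L : Type) [Field L] [Algebra K L] [Algebra k[X] L] [IsScalarTower k[X] K L]
    [FiniteDimensional K L], AdmissibleField K v₁ g f d L → ∀ n : ℕ,
    ∃ (L' : Type) (_ : Field L') (_ : Algebra K L') (_ : Algebra k[X] L')
      (_ : IsScalarTower k[X] K L') (_ : FiniteDimensional K L'), Nonempty (L →ₐ[K] L') ∧
      Module.finrank K L' = Module.finrank K L * 2 ^ n ∧ AdmissibleField K v₁ g f d L'

/-- Let `g ≥ 1`, let `k` be a finite field of odd characteristic and `K = k(t)`. There is a place at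
infinity. Let `f` be generic, with the prime `P₀`, let `E₀` be a finite Galois extension of `K` in which
`P₀` is unramified, `S` a finite set of primes other than `P₀`, `D₀` squarefree and prime to `P₀`, and `B ≥ 0`.
There are a monic `d`, whose prime divisors are of even degree larger than `B` and split completely in `E₀`,
with `D₀ d` squarefree, and `c > 0`, such that for all large `N` the twist by `D₀ d p` is good for at least
`c q ^ N / N` primes `p` of degree at most `N`; the field `K` is admissible for `f` and `D₀ d`, and there are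
towers of admissible fields. -/
theorem result (g : ℕ) (hg : 1 ≤ g) (k : Type) [Field k] [Finite k] (h2 : (2 : k) ≠ 0) (K : Type)
    [Field K] [Algebra k[X] K] [IsFractionRing k[X] K] :
    (∃ (R₁ : Type) (_ : CommRing R₁) (_ : IsDedekindDomain R₁) (_ : Algebra R₁ K)
      (_ : IsFractionRing R₁ K) (v₁ : HeightOneSpectrum R₁), IsInfinity k (K := K) v₁) ∧
    ∀ (R₁ : Type) [CommRing R₁] [IsDedekindDomain R₁] [Algebra R₁ K] [IsFractionRing R₁ K]
      (v₁ : HeightOneSpectrum R₁), IsInfinity k (K := K) v₁ →
    ∀ (f : k[X][X]) (P₀ : k[X]), IsGeneric K g f P₀ →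
    ∀ (E₀ : Type) [Field E₀] [Algebra K E₀] [Algebra k[X] E₀] [IsScalarTower k[X] K E₀]
      [FiniteDimensional K E₀] [IsGalois K E₀], Unramified E₀ P₀ →
    ∀ (S : Finset k[X]), (∀ P ∈ S, P.Monic ∧ Irreducible P ∧ ¬ P₀ ∣ P) →
    ∀ D₀ : k[X], Squarefree D₀ → ¬ P₀ ∣ D₀ → ∀ B : ℕ,
    ∃ d : k[X], d.Monic ∧ Squarefree (D₀ * d) ∧
      (∀ Q : k[X], Irreducible Q → Q ∣ d →
        B < Q.natDegree ∧ Even Q.natDegree ∧ SplitsCompletely E₀ Q) ∧
      AdmissibleField K v₁ g f (D₀ * d) K ∧ Towers K v₁ g f (D₀ * d) ∧
      ∃ (c : ℝ) (N₀ : ℕ), 0 < c ∧ ∀ N : ℕ, N₀ ≤ N →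
        c * (Nat.card k : ℝ) ^ N / (N : ℝ) ≤ (((goodPrimes K v₁ g f S D₀ d N).ncard : ℕ) : ℝ) := by
  refine ⟨Pool.Agent.Helper28H.FE.inf k K, ?_⟩
  intro R₁ _ _ _ _ v₁ hv f P₀ hf E₀ _ _ _ _ _ _ hE S hS D₀ hD₀ hPD B
  have hyp := hf.hyp hg h2
  have h2K : ∀ (M : Type) [Field M] [Algebra k[X] M], (2 : M) ≠ 0 := by
    intro M _ _ h0
    obtain ⟨c, hc⟩ := Pool.Agent.Helper28H.FE.Cyc.two_unit (A := M) h2
    rw [h0, mul_zero] at hc
    exact zero_ne_one hc
  have h0 : D₀ ≠ 0 := hD₀.ne_zero
  obtain ⟨d, hdm, hsq, hP₀, hdQ, c, N₀, hc, hcount⟩ :=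
    Pool.Agent.Helper28H.QT.core Pool.Agent.Helper28H.QT.cntT Pool.Agent.Helper28H.QT.cnpT g k K f
      P₀ R₁ v₁ E₀ B hyp hv hE S hS D₀ hD₀ hPD
  have hd0 : d ≠ 0 := hdm.ne_zero
  obtain ⟨T, hT, hTP⟩ := Pool.Agent.Helper28H.QT.exists_T hyp (mul_ne_zero h0 hd0) hP₀
  have hgood : ∀ D₁ : k[X], Pool.Agent.Helper28H.QT.Good K v₁ g f S D₀ d D₁ →
      GoodTwist K v₁ g f S D₀ d (D₀ * D₁) := by
    intro D₁ hG
    refine ⟨hG.sqf, ⟨D₁, rfl, hG.mon, hG.dvd, hG.inf, hG.loc⟩, ?_⟩
    intro M _ _ _ _ _ R _ _ _ _ _ _ _ hM
    obtain ⟨h3, h4⟩ := hG.sel M R hM.adm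
    have hD0 : D₀ * D₁ ≠ 0 := hG.sqf.ne_zero
    have hsep := sep_twist hf hD0 M
    have hmT : (twist (D₀ * D₁) f M).Monic := ((monic_scaleRoots_iff _).2 hf.monic).map _
    have hoT : Odd (twist (D₀ * D₁) f M).natDegree := by
      rw [twist, ((monic_scaleRoots_iff _).2 hf.monic).natDegree_map, natDegree_scaleRoots,
        hf.degree]
      exact odd_two_mul_add_one g
    obtain ⟨h5, h6⟩ := Pool.Agent.N352.JB.gen (h2K M) hmT h3 hsep hoT h4
    exact ⟨h3, hsep, Pool.Agent.N874.Jac.div_of _ h5, fun c m h7 h8 h9 => h6 c m h7 h8 h9⟩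
  refine ⟨d, hdm, hsq, hdQ, ?_, ?_, c, N₀, hc, fun N hN => ?_⟩
  · refine ⟨inferInstance, ⟨0, by rw [Module.finrank_self, pow_zero]⟩, fun P hP _ => ?_,
      fun P hP _ => ?_, fun P hP hu => ?_, ⟨Algebra.ofId K _⟩⟩
    · exact Pool.Agent.Helper28H.FE.MainE.split_base hP
    · exact Pool.Agent.Helper28H.FE.MainE.split_base hP
    · exact absurd (fun w hw => (Pool.Agent.Helper28H.FE.MainE.split_base hP w hw).1) hu
  · intro L _ _ _ _ _ hL n
    obtain ⟨E, iF, iA, iX, iT, iFD, h3, h4, h5⟩ :=
      Pool.Agent.Helper28H.FE.Quad2.tower hv hyp hT hTP L hL.adm n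
    exact ⟨E, iF, iA, iX, iT, iFD, h3, h4, AdmissibleField.of h5⟩
  · refine (hcount N hN).2.trans ?_
    norm_cast
    refine Set.ncard_le_ncard ?_
      ((Pool.Agent.Helper28H.QT.fin_natDegree (k := k) N).subset fun D hD => hD.1)
    rintro p ⟨hp1, hp2, hG⟩
    refine ⟨hp1, hdm.of_mul_monic_left hG.mon, hp2, ?_⟩
    rw [mul_assoc]
    exact hgood _ hG

end Pool.Agent.Results.MP_ff7320_nt.PositiveProportionOfPrimes
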